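import Pool.Agent.Work.MP_e54950_al.Unif

set_option autoImplicit false

universe u v w

namespace Pool.Agent.Results.MP_e54950_al.UniformEdge

/-- For every signature `L`, every `n`-ary `L`-term `t` and every system of Taylor identities
(given by the patterns `p i`, `q i` with `p i i = true` and `q i i = false`) there is one 4-ary
`L`-term `e` that is an idempotent weak 3-edge term of every `L`-algebra in which `t` is
idempotent and obeys these identities. -/
theorem result (L : FirstOrder.Language.{u, v}) (n : ℕ) (t : L.Term (Fin n))
    (p q : Fin n → Fin n → Bool) (hp : ∀ i, p i i = true) (hq : ∀ i, q i i = false) :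
    ∃ e : L.Term (Fin 4), ∀ (A : Type w) [L.Structure A],
      (∀ a : A, t.realize (fun _ => a) = a) →
      (∀ (i : Fin n) (x y : A),
        t.realize (fun k => cond (p i k) x y) = t.realize (fun k => cond (q i k) x y)) →
      (∀ a : A, e.realize (fun _ => a) = a) ∧
        ∀ a b : A, e.realize ![b, b, a, a] = e.realize ![b, a, b, a] ∧
          e.realize ![b, a, b, a] = e.realize ![a, a, a, b] :=
  Pool.Agent.W3E.Unif.unifL L n t p q hp hq

end Pool.Agent.Results.MP_e54950_al.UniformEdge
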